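import Pool.Agent.MP_1246c0_nt.H25.SpecA

/-! The formal properties of the characters and the layers inside the algebraic numbers. -/

namespace Pool.Agent.MP_1246c0_nt.H25

open NumberField IsDedekindDomain Polynomial Finset Pool.Agent.MP_db5b97_nt.H85
open Pool.Agent.MP_1246c0_nt.H12

namespace AX0

/-! ### Open subgroups -/

theorem op_top : Op ⊤ := ⟨inferInstance, by simp, fun h => ⟨0, Subgroup.mem_top _⟩⟩

theorem op_inf (U V : Subgroup Ga) (hU : Op U) (hV : Op V) : Op (U ⊓ V) := by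
  obtain ⟨n1, o1, p1⟩ := hU
  obtain ⟨n2, o2, p2⟩ := hV
  refine ⟨inferInstance, o1.inter o2, fun h => ?_⟩
  obtain ⟨k, hk⟩ := p1 h
  obtain ⟨k', hk'⟩ := p2 h
  refine ⟨k + k', ?_, ?_⟩
  · rw [pow_add, pow_mul]; exact U.pow_mem hk _
  · rw [pow_add, mul_comm, pow_mul]; exact V.pow_mem hk' _

theorem op_ker {A : Type} [AddCommGroup A] (f : Ga → A) (hf : ∀ h h', f (h * h') = f h + f h')
    (k : ℕ) (hk : ∀ a : A, 2 ^ k • a = 0) (x : Om) (hx : ∀ h : Ga, h x = x → f h = 0) :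
    ∃ U, Op U ∧ ∀ u ∈ U, f u = 0 := by
  let φ : Ga →* Multiplicative A := MonoidHom.mk' (fun h => Multiplicative.ofAdd (f h)) (by
    intro a b; rw [hf, ofAdd_add])
  have hm : ∀ u, u ∈ φ.ker ↔ f u = 0 := fun u => Iff.rfl
  refine ⟨φ.ker, ⟨inferInstance, ?_, fun h => ⟨k, ?_⟩⟩, fun u hu => (hm u).1 hu⟩
  · refine Subgroup.isOpen_mono (H₁ := MulAction.stabilizer Ga x) (fun h hh => ?_)
      (stabilizer_isOpen_of_isIntegral x)
    exact (hm h).2 (hx h hh)
  · rw [MonoidHom.mem_ker, map_pow]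
    change Multiplicative.ofAdd (f h) ^ 2 ^ k = 1
    rw [← ofAdd_nsmul, hk]; rfl

/-! ### Quadratic characters -/

theorem sq_cases {x y : Om} (h : x * x = y * y) : x = y ∨ x = -y :=
  mul_self_eq_mul_self_iff.1 h

theorem act_sqr {x : Om} {h : Ga} (hx : h x = x) : h (sqr x) = sqr x ∨ h (sqr x) = -sqr x := by
  apply sq_cases
  rw [← map_mul, sqr_mul, hx]

theorem ne_neg_self {s : Om} (hs : s ≠ 0) : -s ≠ s := fun e => hs (by
  have : (2 : Om) * s = 0 := by linear_combination -e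
  exact (mul_eq_zero.1 this).resolve_left two_ne_zero)

theorem sqr_ne {x : Om} (hx : x ≠ 0) : sqr x ≠ 0 := fun e => hx (by
  rw [← sqr_mul x, e, mul_zero])

theorem kch_pos {x : Om} {h : Ga} (e : h (sqr x) = sqr x) : kch x h = 0 := by
  unfold kch; rw [if_pos e]

theorem kch_neg {x : Om} {h : Ga} (e : h (sqr x) ≠ sqr x) : kch x h = 1 := by
  unfold kch; rw [if_neg e]

theorem kch_neg' {x : Om} {h : Ga} (hx : x ≠ 0) (e : h (sqr x) = -sqr x) : kch x h = 1 :=
  kch_neg (by rw [e]; exact ne_neg_self (sqr_ne hx))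

theorem kch_mul (x : Om) (h h' : Ga) (hx : h x = x) (hx' : h' x = x) :
    kch x (h * h') = kch x h + kch x h' := by
  by_cases h0 : x = 0
  · have hs : sqr x = 0 := by
      have := sqr_mul x
      rw [h0] at this ⊢
      exact mul_self_eq_zero.1 this
    have : ∀ g : Ga, kch x g = 0 := fun g => kch_pos (by rw [hs, map_zero])
    simp [this]
  rcases act_sqr hx with e | e <;> rcases act_sqr hx' with e' | e'
  · rw [kch_pos e, kch_pos e', kch_pos (by rw [AlgEquiv.mul_apply, e', e])]; rfl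
  · rw [kch_pos e, kch_neg' h0 e', kch_neg' h0 (by rw [AlgEquiv.mul_apply, e', map_neg, e])]; rfl
  · rw [kch_neg' h0 e, kch_pos e', kch_neg' h0 (by rw [AlgEquiv.mul_apply, e', e])]; rfl
  · rw [kch_neg' h0 e, kch_neg' h0 e',
      kch_pos (by rw [AlgEquiv.mul_apply, e', map_neg, e, neg_neg])]; rfl

theorem kch_mul' (x y : Om) (h : Ga) (h0 : x ≠ 0) (h1 : y ≠ 0) (hx : h x = x) (hy : h y = y) :
    kch (x * y) h = kch x h + kch y h := by
  have hc : sqr (x * y) = sqr x * sqr y ∨ sqr (x * y) = -(sqr x * sqr y) := by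
    apply sq_cases
    rw [sqr_mul, mul_mul_mul_comm, sqr_mul, sqr_mul]
  have hxy := mul_ne_zero h0 h1
  rcases act_sqr hx with e | e <;> rcases act_sqr hy with e' | e'
  · rw [kch_pos e, kch_pos e', kch_pos (by rcases hc with c | c <;> simp [c, e, e'])]; rfl
  · rw [kch_pos e, kch_neg' h1 e', kch_neg' hxy (by rcases hc with c | c <;> simp [c, e, e'])]; rfl
  · rw [kch_neg' h0 e, kch_pos e', kch_neg' hxy (by rcases hc with c | c <;> simp [c, e, e'])]; rfl
  · rw [kch_neg' h0 e, kch_neg' h1 e', kch_pos (by rcases hc with c | c <;> simp [c, e, e'])]; rfl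

theorem chi_mul (m : ℤ) (h h' : Ga) : chi m (h * h') = chi m h + chi m h' :=
  kch_mul _ h h' (map_intCast h m) (map_intCast h' m)

theorem chi_mul' (m m' : ℤ) (h : Ga) (h0 : m ≠ 0) (h1 : m' ≠ 0) :
    chi (m * m') h = chi m h + chi m' h := by
  unfold chi
  rw [Int.cast_mul]
  exact kch_mul' _ _ h (Int.cast_ne_zero.2 h0) (Int.cast_ne_zero.2 h1) (map_intCast h m)
    (map_intCast h m')

theorem chi_op (m : ℤ) : ∃ U, Op U ∧ ∀ u ∈ U, chi m u = 0 :=
  op_ker (chi m) (chi_mul m) 1 (fun a => by rw [pow_one, two_nsmul]; exact CharTwo.add_self_eq_zero a)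
    (sqr (m : Om)) fun _ e => kch_pos e

/-! ### The tower -/

theorem tw_th (n : ℕ) : tw (th (n + 1)) = th n := by
  have := sqr_mul (2 + th n)
  simp only [tw, th]
  linear_combination this

theorem tw_iter_th (k n : ℕ) : tw^[k] (th (n + k)) = th n := by
  induction k with
  | zero => rfl
  | succ k ih => rw [Function.iterate_succ_apply, ← add_assoc, tw_th, ih]

theorem tw_root (n : ℕ) : tw^[n] (th n) = 0 := by
  have := tw_iter_th n 0
  rwa [zero_add] at this

theorem map_tw {R S : Type} [Ring R] [Ring S] (f : R →+* S) (k : ℕ) (x : R) :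
    f (tw^[k] x) = tw^[k] (f x) := by
  induction k generalizing x with
  | zero => rfl
  | succ k ih =>
    rw [Function.iterate_succ_apply, Function.iterate_succ_apply, ih]
    simp [tw, map_ofNat]

theorem tw_cub : Function.Commute (tw : Om → Om) cub := fun x => by
  simp only [tw, cub]; ring

theorem act_cub (h : Ga) (k : ℕ) (x : Om) : h (cub^[k] x) = cub^[k] (h x) := by
  induction k generalizing x with
  | zero => rfl
  | succ k ih =>
    rw [Function.iterate_succ_apply, Function.iterate_succ_apply, ih]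
    simp [cub, map_ofNat]

/-- the polynomial of the layer -/
noncomputable def pl (n : ℕ) : ℚ[X] := tw^[n] X

theorem pl_succ (n : ℕ) : pl (n + 1) = pl n ^ 2 - 2 := by
  unfold pl; rw [Function.iterate_succ_apply']; rfl

theorem pl_monic (n : ℕ) : (pl n).Monic ∧ (pl n).natDegree = 2 ^ n := by
  induction n with
  | zero => exact ⟨monic_X, natDegree_X⟩
  | succ n ih =>
    have hd : (pl n ^ 2).natDegree = 2 ^ (n + 1) := by
      rw [ih.1.natDegree_pow, ih.2, pow_succ, mul_comm]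
    have h2 : (2 : ℚ[X]).natDegree < (pl n ^ 2).natDegree := by
      rw [hd]; simp
    rw [pl_succ]
    exact ⟨(ih.1.pow 2).sub_of_left (degree_lt_degree h2), by
      rw [natDegree_sub_eq_left_of_natDegree_lt h2, hd]⟩

theorem aeval_pl {R : Type} [CommRing R] [Algebra ℚ R] (n : ℕ) (x : R) :
    aeval x (pl n) = tw^[n] x := by
  have := map_tw (aeval x : ℚ[X] →ₐ[ℚ] R).toRingHom n X
  simpa [pl] using this

theorem pl_irr (H : SCY) (n : ℕ) : Irreducible (pl n) := by
  obtain ⟨F, _, _, θ, γ, hC⟩ := H.ex n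
  have hi : IsIntegral ℚ θ := Algebra.IsIntegral.isIntegral θ
  have hd : (minpoly ℚ θ).natDegree = 2 ^ n := by
    rw [← IntermediateField.adjoin.finrank hi, hC.gen, IntermediateField.finrank_top', hC.rk]
  have he : pl n = minpoly ℚ θ := by
    refine eq_of_monic_of_dvd_of_natDegree_le (minpoly.monic hi) (pl_monic n).1
      (minpoly.dvd ℚ θ (by rw [aeval_pl, hC.root])) (by rw [hd, (pl_monic n).2])
  rw [he]; exact minpoly.irreducible hi

theorem th_int (n : ℕ) : IsIntegral ℚ (th n) := Algebra.IsIntegral.isIntegral _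

theorem minpoly_th (H : SCY) (n : ℕ) : minpoly ℚ (th n) = pl n :=
  (minpoly.eq_of_irreducible_of_monic (pl_irr H n) (by rw [aeval_pl, tw_root]) (pl_monic n).1).symm

/-- the generator of the layer -/
noncomputable def tg (n : ℕ) : kQ n := ⟨th n, IntermediateField.mem_adjoin_simple_self ℚ _⟩

theorem exists_cy (H : SCY) (n : ℕ) : ∃ γ : kQ n ≃ₐ[ℚ] kQ n, Cy (kQ n) n (tg n) γ := by
  let pb : PowerBasis ℚ (kQ n) := IntermediateField.adjoin.powerBasis (th_int n)
  have hg : pb.gen = tg n := rfl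
  have hinj : Function.Injective (algebraMap (kQ n) Om) := Subtype.val_injective
  have hm : minpoly ℚ pb.gen = pl n := by
    rw [← minpoly_th H n, hg]
    exact (minpoly.algebraMap_eq hinj (tg n)).symm
  have hr : aeval (tg n ^ 3 - 3 * tg n) (minpoly ℚ pb.gen) = 0 := by
    rw [hm, aeval_pl]
    apply hinj
    rw [map_tw, map_zero]
    have : algebraMap (kQ n) Om (tg n ^ 3 - 3 * tg n) = cub (th n) := by
      simp only [map_sub, map_mul, map_pow, map_ofNat]; rfl
    rw [this, (tw_cub.iterate_left n).eq, tw_root]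
    simp [cub]
  let f : kQ n →ₐ[ℚ] kQ n := pb.lift _ hr
  refine ⟨AlgEquiv.ofBijective f f.bijective, ?_, ?_, ?_, ?_⟩
  · have := IntermediateField.adjoin.finrank (th_int n)
    rw [minpoly_th H, (pl_monic n).2] at this
    exact this
  · rw [eq_top_iff]
    intro x _
    have := pb.adjoin_gen_eq_top
    have hx : x ∈ Algebra.adjoin ℚ {pb.gen} := by rw [this]; trivial
    exact IntermediateField.algebra_adjoin_le_adjoin ℚ _ hx
  · apply hinj
    rw [map_tw, map_zero]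
    exact tw_root n
  · exact pb.lift_gen _ hr

section Lay

variable {n : ℕ} {γ : kQ n ≃ₐ[ℚ] kQ n}

theorem pow_tg (hC : Cy (kQ n) n (tg n) γ) (k : ℕ) :
    (((γ ^ k) (tg n) : kQ n) : Om) = cub^[k] (th n) := by
  induction k with
  | zero => rfl
  | succ k ih =>
    rw [pow_succ, AlgEquiv.mul_apply, hC.act, Function.iterate_succ_apply', ← ih]
    simp only [map_sub, map_mul, map_pow, map_ofNat]
    rfl

theorem ext_tg (hC : Cy (kQ n) n (tg n) γ) {g g' : kQ n ≃ₐ[ℚ] kQ n} (e : g (tg n) = g' (tg n)) :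
    g = g' := by
  have : (g : kQ n →ₐ[ℚ] kQ n) = g' := by
    have h1 : Algebra.adjoin ℚ {tg n} = ⊤ := by
      rw [← IntermediateField.adjoin_simple_toSubalgebra_of_isAlgebraic
        (Algebra.IsAlgebraic.isAlgebraic (tg n)), hC.gen]
      rfl
    refine AlgHom.ext_of_adjoin_eq_top h1 ?_
    rintro x rfl
    exact e
  exact AlgEquiv.coe_toAlgHom_injective this

theorem cub_eq_iff (H : SCY) (hC : Cy (kQ n) n (tg n) γ) (a b : ℕ) :
    cub^[a] (th n) = cub^[b] (th n) ↔ (a : ZMod (2 ^ n)) = b := by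
  rw [ZMod.natCast_eq_natCast_iff, ← (H.gal _ n _ γ hC).2.2.1, ← pow_eq_pow_iff_modEq,
    ← pow_tg hC, ← pow_tg hC]
  exact ⟨fun e => ext_tg hC (Subtype.ext e), fun e => by rw [e]⟩

theorem exists_pow (H : SCY) (hC : Cy (kQ n) n (tg n) γ) (h : Ga) :
    ∃ k : ℕ, ∀ x : kQ n, h x = ((γ ^ k) x : kQ n) := by
  obtain ⟨hG, hp, -⟩ := H.gal _ n _ γ hC
  have : Normal ℚ (kQ n) := hG.to_normal
  obtain ⟨k, hk⟩ := hp (h.restrictNormal (kQ n))
  refine ⟨k, fun x => ?_⟩
  rw [← hk]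
  exact (h.restrictNormal_commutes (kQ n) x).symm

end Lay

theorem kap_spec (H : SCY) (n : ℕ) (h : Ga) : h (th n) = cub^[(kap n h).val] (th n) := by
  obtain ⟨γ, hC⟩ := exists_cy H n
  obtain ⟨k, hk⟩ := exists_pow H hC h
  refine Classical.epsilon_spec (p := fun k : ZMod (2 ^ n) => h (th n) = cub^[k.val] (th n))
    ⟨(k : ZMod (2 ^ n)), ?_⟩
  have := hk (tg n)
  rw [pow_tg hC] at this
  refine Eq.trans this ((cub_eq_iff H hC _ _).2 ?_)
  rw [ZMod.natCast_zmod_val]

theorem kdef (H : SCY) (n : ℕ) (h : Ga) (k : ℕ) : h (th n) = cub^[k] (th n) ↔ kap n h = k := by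
  obtain ⟨γ, hC⟩ := exists_cy H n
  rw [kap_spec H, cub_eq_iff H hC, ZMod.natCast_zmod_val]

theorem kmul (H : SCY) (n : ℕ) (h h' : Ga) : kap n (h * h') = kap n h + kap n h' := by
  have : kap n (h * h') = (((kap n h').val + (kap n h).val : ℕ) : ZMod (2 ^ n)) := by
    rw [← kdef H, AlgEquiv.mul_apply, kap_spec H n h', act_cub, kap_spec H n h,
      Function.iterate_add_apply]
  rw [this, Nat.cast_add, ZMod.natCast_zmod_val, ZMod.natCast_zmod_val, add_comm]

theorem kzero (H : SCY) (n : ℕ) (h : Ga) : h (th n) = th n ↔ kap n h = 0 := by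
  have := kdef H n h 0
  rwa [Nat.cast_zero] at this

theorem kcomp (H : SCY) (n n' : ℕ) (h : Ga) (hn : n ≤ n') :
    kap n h = ((kap n' h).val : ZMod (2 ^ n)) := by
  obtain ⟨k, rfl⟩ := Nat.exists_eq_add_of_le hn
  rw [← kdef H, ← tw_iter_th k n]
  have := map_tw (h : Om →+* Om) k (th (n + k))
  simp only [RingHom.coe_coe] at this
  rw [this, kap_spec H (n + k) h, ((tw_cub.iterate_left k).iterate_right _).eq]

theorem c2 (H : SCY) (h : Ga) : chi 2 h = ((kap 1 h).val : F2) := by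
  have e : sqr ((2 : ℤ) : Om) = th 1 := by simp [th]
  by_cases hh : h (th 1) = th 1
  · rw [(kzero H 1 h).1 hh, ZMod.val_zero, Nat.cast_zero]
    exact kch_pos (by rw [e, hh])
  · have h1 : (kap 1 h).val ≠ 0 := fun e0 => hh ((kzero H 1 h).2 ((ZMod.val_eq_zero _).1 e0))
    have h2 : (kap 1 h).val < 2 ^ 1 := ZMod.val_lt _
    have h3 : (kap 1 h).val = 1 := by omega
    rw [h3, Nat.cast_one]
    exact kch_neg (by rw [e]; exact hh)

theorem ax0 (H : SCY) : Ax0 where
  opt := op_top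
  opi := op_inf
  cmul := chi_mul
  cmul' := chi_mul'
  cop := chi_op
  kdef := kdef H
  kmul := kmul H
  kop n := op_ker (kap n) (kmul H n) n
    (fun a => by rw [nsmul_eq_mul, ZMod.natCast_self, zero_mul]) (th n)
    fun h e => (kzero H n h).1 e
  kcomp := kcomp H
  c2 := c2 H

theorem cy (H : SCY) (n : ℕ) : ∃ (θ : kQ n) (γ : kQ n ≃ₐ[ℚ] kQ n), (θ : Om) = th n ∧
    Cy (kQ n) n θ γ ∧ ∀ (h : Ga) (x : kQ n), h x = ((γ ^ (kap n h).val) x : kQ n) := by
  obtain ⟨γ, hC⟩ := exists_cy H n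
  refine ⟨tg n, γ, rfl, hC, fun h x => ?_⟩
  obtain ⟨k, hk⟩ := exists_pow H hC h
  have : γ ^ k = γ ^ (kap n h).val := by
    refine ext_tg hC (Subtype.ext ?_)
    rw [← hk, pow_tg hC]
    exact kap_spec H n h
  rw [hk, this]

theorem mem (H : SCY) (n : ℕ) (h : Ga) : h ∈ (kQ n).fixingSubgroup ↔ kap n h = 0 := by
  rw [IntermediateField.mem_fixingSubgroup_iff]
  refine ⟨fun e => (kzero H n h).1 (e _ (tg n).2), fun e x hx => ?_⟩
  obtain ⟨θ, γ, -, -, hk⟩ := cy H n
  have := hk h ⟨x, hx⟩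
  rw [e, ZMod.val_zero, pow_zero] at this
  exact this

theorem root' (n : ℕ) : ∃ ζ : Om, ζ ^ 2 ^ (n + 1) = -1 ∧ th n = ζ + ζ⁻¹ := by
  induction n with
  | zero =>
    have h := sqr_mul (-1)
    refine ⟨sqr (-1), by rw [zero_add, pow_one, pow_two, h], ?_⟩
    rw [inv_eq_of_mul_eq_one_right (a := sqr (-1)) (b := -sqr (-1)) (by rw [mul_neg, h, neg_neg])]
    simp [th]
  | succ n ih =>
    obtain ⟨ζ, h1, h2⟩ := ih
    have h0 : ζ ≠ 0 := by
      rintro rfl
      simp at h1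
    have hz := sqr_mul ζ
    have hz0 := sqr_ne h0
    have hp : sqr ζ ^ 2 ^ (n + 1 + 1) = -1 := by
      rw [pow_succ' 2 (n + 1), pow_mul, pow_two, hz, h1]
    have hc : th (n + 1) * th (n + 1) = (sqr ζ + (sqr ζ)⁻¹) * (sqr ζ + (sqr ζ)⁻¹) := by
      have e1 : th (n + 1) * th (n + 1) = 2 + th n := sqr_mul _
      have e2 : (sqr ζ)⁻¹ * (sqr ζ)⁻¹ = ζ⁻¹ := by rw [← mul_inv, hz]
      have e3 : sqr ζ * (sqr ζ)⁻¹ = 1 := mul_inv_cancel₀ hz0
      rw [e1, h2]
      linear_combination -hz - e2 - 2 * e3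
    rcases sq_cases hc with c | c
    · exact ⟨sqr ζ, hp, c⟩
    · refine ⟨-sqr ζ, ?_, by rw [c, inv_neg, neg_add]⟩
      rw [Even.neg_pow ⟨2 ^ (n + 1), by ring⟩, hp]

theorem root (n : ℕ) : ∃ ζ : Om, IsPrimitiveRoot ζ (2 ^ (n + 2)) ∧ th n = ζ + ζ⁻¹ := by
  obtain ⟨ζ, h1, h2⟩ := root' n
  refine ⟨ζ, ?_, h2⟩
  have : orderOf ζ = 2 ^ (n + 1 + 1) :=
    orderOf_eq_prime_pow (by rw [h1]; exact ne_neg_self one_ne_zero)
      (by rw [pow_succ, pow_mul, h1]; simp)
  rw [← this]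
  exact IsPrimitiveRoot.orderOf ζ

end AX0

theorem rowAX0 : OfAX0 := fun H => ⟨AX0.ax0 H, AX0.cy H, AX0.mem H, AX0.root⟩

end Pool.Agent.MP_1246c0_nt.H25
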