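import Pool.Agent.MP_1246c0_nt.H25.SpecR
import Pool.Agent.MP_1246c0_nt.H13.NS

/-! Solutions of the random system that do not span on the big indices. -/

namespace Pool.Agent.MP_1246c0_nt.H25

open Finset
open Pool.Agent.MP_1246c0_nt.H12 Pool.Agent.MP_1246c0_nt.H12.NS

namespace NSO

variable {Λ ι G : Type} [CommRing Λ] [Fintype ι] [DecidableEq ι] [AddCommGroup G] [Module Λ G]

/-- the property of being a solution for some random part -/
def Qo (st : Λ →+* Λ) (S : Matrix ι ι Λ) (c : ι → Λ) (B P O : Finset ι) (b : Bool)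
    (u : Module.End Λ G) (g : ι → G) : Prop :=
  ∃ H ∈ Hs st B B, (Slo (S + H) c P O b u g ∧ Gen u g) ∧ sp Λ (xv P b u g) B ≠ ⊤

theorem case2 [Finite G] (QF : SQF) {st : Λ →+* Λ} {au : Λ →+* F2} {τ : Λ} {N : ℕ}
    {S : Matrix ι ι Λ} {c : ι → Λ} {B P O J : Finset ι} {b : Bool} {m z γ : ℕ}
    {u : Module.End Λ G} (hL : LR st au τ N) (hO : Ok st au S c B P J b m z) (hA : Oa B P O)
    (hG : Nat.card G = 2 ^ γ) (W : Submodule Λ G) :
    Nat.card {g : ι → G // Qo st S c B P O b u g ∧ sp Λ (xv P b u g) B = W} * 2 ^ (P ∩ B).card ≤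
      Nat.card G * Nat.card G ^ Bᶜ.card * Nat.card W ^ B.card := by
  set W2 : Submodule Λ G := W ⊓ W.comap u with hW2
  set ξ : (ι → G) → G := fun g => if b = true then 0 else ∑ l' ∈ O, g l' with hξ
  have aux : ∀ g : ι → G, Qo st S c B P O b u g → sp Λ (xv P b u g) B = W →
      (∀ l, g l ∈ W) ∧ (∀ l ∈ P, g l + ξ g ∈ W2) ∧ W2 < W := by
    rintro g ⟨H, hH, ⟨⟨h1, -⟩, hgen⟩, hne⟩ hW
    have hB : ∀ l ∈ B, xv P b u g l ∈ W := fun l hl => hW ▸ mem_sp _ B hl
    have hall : ∀ l, xv P b u g l ∈ W := by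
      refine socW QF hL W Bᶜ (κ := {l // l ∈ B ∧ l ∉ P}) (fun l => S l.1) ?_ _ ?_ ?_
      · intro y hy hy'
        exact hO.col y (fun l hl => hy l (by simpa using hl)) fun l hl hP => hy' ⟨l, hl, hP⟩
      · intro l hl
        exact hB l (by simpa using hl)
      · rintro ⟨l, hl, hP⟩
        have e := h1 l
        rw [ap_add, rvo, if_neg hP] at e
        have hm : ap H (xv P b u g) l ∈ W := ap_mem H _ l W fun l' h0 => by
          by_contra hn
          refine h0 (hH.2.2 l l' ?_)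
          rintro ⟨-, h, -⟩
          exact hn (hB l' h)
        have : ap S (xv P b u g) l = -ap H (xv P b u g) l := eq_neg_of_add_eq_zero_left e
        exact (show ap S (xv P b u g) l ∈ W from this ▸ W.neg_mem hm)
    have hrv : ∀ l, rvo P O b u g l ∈ W := fun l => h1 l ▸ ap_mem _ _ l W fun l' _ => hall l'
    have hg : (∀ l, g l ∈ W) ∧ ∀ l ∈ P, g l + ξ g ∈ W2 := by
      cases b with
      | false =>
        rw [xv_false] at hall
        refine ⟨hall, fun l hl => ?_⟩
        have e := hrv l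
        rw [rvo, if_pos hl, if_neg (by simp)] at e
        have e2 : ξ g = ∑ l' ∈ O, g l' := by simp [hξ]
        rw [e2]
        exact ⟨W.add_mem (hall l) (W.sum_mem fun l' _ => hall l'), e⟩
      | true =>
        have h0 : ∀ l ∈ P, g l + ∑ l' ∈ O, g l' ∈ W := fun l hl => by
          have e := hrv l
          rwa [rvo, if_pos hl, if_pos rfl] at e
        have hsum : ∑ l' ∈ O, g l' ∈ W := by
          have e := W.sum_mem fun l (hl : l ∈ O) => h0 l (hA.sub hl)
          obtain ⟨k, hk⟩ := hA.ev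
          have e2 : O.card • ∑ l' ∈ O, g l' = 0 := by
            rw [hk, ← two_mul, mul_smul, two_nsmul, ← two_smul Λ, hL.two, zero_smul]
          rwa [Finset.sum_add_distrib, Finset.sum_const, e2, add_zero] at e
        have hP : ∀ l ∈ P, g l ∈ W := fun l hl => (W.add_mem_iff_left hsum).1 (h0 l hl)
        refine ⟨fun l => ?_, fun l hl => ?_⟩
        · by_cases hl : l ∈ P
          · exact hP l hl
          · have e := hall l
            rwa [xv, if_neg fun h => hl h.1] at e
        · have e := hall l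
          rw [xv, if_pos ⟨hl, rfl⟩] at e
          have e2 : ξ g = 0 := by simp [hξ]
          rw [e2, add_zero]
          exact ⟨hP l hl, e⟩
    refine ⟨hg.1, hg.2, lt_of_le_of_ne inf_le_left fun he => hne ?_⟩
    rw [hW]
    refine hgen W (fun w hw => ?_) hg.1
    have : w ∈ W2 := he.symm ▸ hw
    exact this.2
  by_cases hex : ∃ g : ι → G, Qo st S c B P O b u g ∧ sp Λ (xv P b u g) B = W
  · obtain ⟨g0, hq0, hw0⟩ := hex
    have hlt := (aux g0 hq0 hw0).2.2
    have h2 := (QF.few Λ G ι γ hG).2.1 W2 W hlt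
    have hc := cntG (K := G) (fun l => if l ∈ B then (if l ∈ P then W2 else W) else ⊤)
      (fun g => Qo st S c B P O b u g ∧ sp Λ (xv P b u g) B = W) ξ
      (by
        rintro g g' ⟨hq, hw⟩ ⟨hq', hw'⟩ hφ l
        obtain ⟨a1, a2, -⟩ := aux g hq hw
        obtain ⟨b1, b2, -⟩ := aux g' hq' hw'
        by_cases hl : l ∈ B
        · rw [if_pos hl]
          by_cases hP : l ∈ P
          · rw [if_pos hP]
            have := W2.sub_mem (a2 l hP) (b2 l hP)
            rwa [hφ, add_sub_add_right_eq_sub] at this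
          · rw [if_neg hP]
            exact W.sub_mem (a1 l) (b1 l)
        · rw [if_neg hl]
          exact Submodule.mem_top)
    have e : (∏ l, Nat.card (if l ∈ B then (if l ∈ P then W2 else W) else (⊤ : Submodule Λ G) :)) *
        2 ^ (P ∩ B).card ≤ Nat.card W ^ B.card * Nat.card G ^ Bᶜ.card := by
      have e1 : 2 ^ (P ∩ B).card = ∏ l, if l ∈ P ∩ B then 2 else 1 := by
        rw [prodIte, one_pow, mul_one]
      rw [e1, ← Finset.prod_mul_distrib, ← prodIte]
      refine Finset.prod_le_prod' fun l _ => ?_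
      by_cases hl : l ∈ B
      · by_cases hP : l ∈ P
        · rw [if_pos hl, if_pos hP, if_pos (Finset.mem_inter.2 ⟨hP, hl⟩), if_pos hl, mul_comm]
          exact h2
        · rw [if_pos hl, if_neg hP, if_neg fun h => hP (Finset.mem_inter.1 h).1, if_pos hl, mul_one]
      · rw [if_neg hl, if_neg fun h => hl (Finset.mem_inter.1 h).2, if_neg hl, mul_one]
        exact le_of_eq (Nat.card_congr Submodule.topEquiv.toEquiv)
    calc _ ≤ Nat.card G * (∏ l, Nat.card
          (if l ∈ B then (if l ∈ P then W2 else W) else (⊤ : Submodule Λ G) :)) *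
          2 ^ (P ∩ B).card := Nat.mul_le_mul_right _ hc
      _ ≤ Nat.card G * (Nat.card W ^ B.card * Nat.card G ^ Bᶜ.card) := by
          rw [mul_assoc]
          exact Nat.mul_le_mul_left _ e
      _ = _ := by ring
  · have : IsEmpty {g : ι → G // Qo st S c B P O b u g ∧ sp Λ (xv P b u g) B = W} :=
      ⟨fun g => hex ⟨g.1, g.2⟩⟩
    rw [Nat.card_of_isEmpty, zero_mul]
    exact Nat.zero_le _

theorem cases2 [Finite G] (QF : SQF) {st : Λ →+* Λ} {au : Λ →+* F2} {τ : Λ} {N : ℕ}
    {S : Matrix ι ι Λ} {c : ι → Λ} {B P O J : Finset ι} {b : Bool} {m z γ : ℕ}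
    {u : Module.End Λ G} (hL : LR st au τ N) (hO : Ok st au S c B P J b m z) (hA : Oa B P O)
    (hG : Nat.card G = 2 ^ γ) (W : Submodule Λ G) :
    Nat.card {g : ι → G // Qo st S c B P O b u g ∧ sp Λ (xv P b u g) B = W} * 2 ^ m ≤
      2 ^ (γ + γ * z) * Nat.card W ^ B.card := by
  have hz : Nat.card G ^ Bᶜ.card ≤ 2 ^ (γ * z) := by
    rw [hG, ← pow_mul]
    exact Nat.pow_le_pow_right (by norm_num) (Nat.mul_le_mul_left _ hO.sml)
  calc _ ≤ _ * 2 ^ (P ∩ B).card :=
        Nat.mul_le_mul_left _ (Nat.pow_le_pow_right (by norm_num) hO.pen)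
    _ ≤ _ := case2 QF hL hO hA hG W
    _ ≤ 2 ^ γ * 2 ^ (γ * z) * Nat.card W ^ B.card := by
        rw [← hG]
        exact Nat.mul_le_mul_right _ (Nat.mul_le_mul_left _ hz)
    _ = _ := by rw [pow_add]

end NSO

theorem rowNSO : OfNSO := by
  intro AVG QF CR Λ ι G _ _ _ _ _ _ _ st au τ N S c B P O J b m z γ u hL hO hA hG
  classical
  have := Fintype.ofFinite G
  have : Finite (Submodule Λ G) := Finite.of_injective _ SetLike.coe_injective
  rw [AVG.cnt (Matrix ι ι Λ) (ι → G) (Hs st B B) fun H g =>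
    (Slo (S + H) c P O b u g ∧ Gen u g) ∧ sp Λ (xv P b u g) B ≠ ⊤]
  set w : Submodule Λ G → ℝ := fun k => 2 ^ (2 * γ * γ) / (Nat.card k : ℝ) ^ B.card with hw
  have h1 : ∀ g : ι → G, Ex (Hs st B B) (fun H =>
      ind ((Slo (S + H) c P O b u g ∧ Gen u g) ∧ sp Λ (xv P b u g) B ≠ ⊤)) ≤
      ind (NSO.Qo st S c B P O b u g) * w (sp Λ (xv P b u g) B) := by
    intro g
    by_cases hq : NSO.Qo st S c B P O b u g
    · have e : ind (NSO.Qo st S c B P O b u g) = 1 := by simp [ind, hq]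
      have hcr := CR Λ ι G st B B γ (xv P b u g)
        (fun l => rvo P O b u g l - ap S (xv P b u g) l) hL.inv subset_rfl hG
      rw [Finset.sdiff_self, Finset.card_empty, pow_zero, mul_one] at hcr
      rw [e, one_mul]
      refine le_trans (AVG.mono _ _ _ _ fun H _ => ind_mono ?_) hcr
      rintro ⟨⟨⟨h, -⟩, -⟩, -⟩ l -
      have := h l
      rw [ap_add] at this
      exact eq_sub_of_add_eq' this
    · have e : ind (NSO.Qo st S c B P O b u g) = 0 := by simp [ind, hq]
      rw [e, zero_mul, ← AVG.const _ (Hs st B B) 0]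
      refine AVG.mono _ _ _ _ fun H hH => ?_
      have : ¬((Slo (S + H) c P O b u g ∧ Gen u g) ∧ sp Λ (xv P b u g) B ≠ ⊤) :=
        fun h => hq ⟨H, hH, h⟩
      unfold ind
      rw [if_neg this]
  refine le_trans (Finset.sum_le_sum fun g _ => h1 g) ?_
  refine le_trans (sumFib (fun g : ι → G => sp Λ (xv P b u g) B)
    (NSO.Qo st S c B P O b u) w (2 ^ (2 * γ * γ) * 2 ^ (γ + γ * z) / 2 ^ m) ?_) ?_
  · intro W
    have h := NSO.cases2 (u := u) QF hL hO hA hG W
    have h' : (Nat.card {g : ι → G // NSO.Qo st S c B P O b u g ∧ sp Λ (xv P b u g) B = W} : ℝ) *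
        2 ^ m ≤ 2 ^ (γ + γ * z) * (Nat.card W : ℝ) ^ B.card := by
      exact_mod_cast h
    have p1 : (0 : ℝ) < Nat.card W := by exact_mod_cast Nat.card_pos
    simp only [hw]
    rw [← mul_div_assoc, div_le_div_iff₀ (by positivity) (by positivity)]
    calc _ = 2 ^ (2 * γ * γ) * ((Nat.card {g : ι → G // NSO.Qo st S c B P O b u g ∧
          sp Λ (xv P b u g) B = W} : ℝ) * 2 ^ m) := by ring
      _ ≤ 2 ^ (2 * γ * γ) * (2 ^ (γ + γ * z) * (Nat.card W : ℝ) ^ B.card) :=
          mul_le_mul_of_nonneg_left h' (by positivity)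
      _ = _ := by ring
  · have hs : (Nat.card (Submodule Λ G) : ℝ) ≤ 2 ^ (γ * γ) := by
      exact_mod_cast (QF.few Λ G ι γ hG).1
    rw [← mul_div_assoc]
    refine div_le_div_of_nonneg_right ?_ (by positivity)
    calc _ ≤ (2 : ℝ) ^ (γ * γ) * (2 ^ (2 * γ * γ) * 2 ^ (γ + γ * z)) := by gcongr
      _ = 2 ^ (γ * γ + (2 * γ * γ + (γ + γ * z))) := by simp only [pow_add]
      _ ≤ _ := pow_le_pow_right₀ (by norm_num) (by nlinarith [Nat.zero_le (γ * z)])

end Pool.Agent.MP_1246c0_nt.H25
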